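import Pool.Agent.W25.UN.Stm2
import Pool.Agent.H362R2.CM.Sum

set_option autoImplicit false

namespace Pool.Agent.W976.UN

open Finset Filter Topology
open Pool.Agent.H410R2 hiding GP GP_prof GP_cut_some GP_cut_none GP_lip gg_pos gg_le_one gg_anti ee_bound ee_nonneg gg_lip LB_gg LB_ee Sums exists_sums yx wx wxi Br sum_GP_none sum_GP_some sum_GP_some_ee sum_GP_some_one sum_GPr_none sum_GPr_some S1_final QI_final S2_final w_abs_le wmax gg ee I1 I2 IE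
open Pool.Agent.H361R2.GM
open Pool.Agent.H362R2.CM
open Pool.Agent.W25.UN

theorem useU (hOD : OneDimU) (C c K : ℝ) (F : ℝ → ℝ) (hc : 0 < c) (hF : LB c K F) (h : ℕ → ℝ)
    (hh : ∀ p : ℕ, p.Prime → |h p - 1 / p| ≤ C / (p : ℝ) ^ 2) (ε : ℝ) (hε : 0 < ε)
    (a : ℝ) (ha : 0 < a) (hac : c * a < 1 / 4) (C' : ℝ) :
    ∀ᶠ l : ℝ in atTop, ∀ (D' : ℕ) (Cl P : Finset ℕ), D' = ⌊l ^ 3⌋₊ → (Cl.card : ℝ) ≤ C' * l →
      (∀ p ∈ P, p.Prime ∧ D' < p) →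
      (∀ p : ℕ, p.Prime → D' < p → (p : ℝ) ≤ Real.exp (l / 4) → p ∉ Cl → p ∈ P) →
      |SS P h c (a * l) F - BD D' * (a * l) * ∫ t in (0 : ℝ)..c, F t| ≤ ε * (BD D' * (a * l)) := by
  have hδ : 0 < 1 / (4 * a) - c := by
    rw [sub_pos, lt_div_iff₀ (by positivity)]
    linarith
  have h1 := hOD C c K F hc hF.1 hF.2 h 0 (fun p hp _ => hh p hp) ε 4 (max C' 0 / a)
    (1 / (4 * a) - c) hε hδ
  have ht : Tendsto (fun l : ℝ => a * l) atTop atTop := tendsto_id.const_mul_atTop ha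
  filter_upwards [ht.eventually h1, eventually_ge_atTop (1 : ℝ), eventually_ge_atTop (a ^ 2 + 1),
    eventually_ge_atTop (1 / a ^ 4)] with l h2 hl1 hl2 hl3 D' Cl P hD hCl hP1 hP2
  refine h2 D' Cl P ?_ ?_ ?_ hP1 ?_
  · have h3 : l ^ 3 < ⌊l ^ 3⌋₊ + 1 := Nat.lt_floor_add_one _
    rw [hD]
    nlinarith [mul_le_mul_of_nonneg_right hl2 (by positivity : (0 : ℝ) ≤ l ^ 2),
      one_le_pow₀ hl1 (n := 2)]
  · have h3 : (⌊l ^ 3⌋₊ : ℝ) ≤ l ^ 3 := Nat.floor_le (by positivity)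
    have h4 : (a * l) ^ (4 : ℝ) = (a * l) ^ 4 := by
      exact_mod_cast Real.rpow_natCast (a * l) 4
    rw [hD, h4]
    refine h3.trans ?_
    rw [div_le_iff₀ (by positivity)] at hl3
    rw [mul_pow]
    nlinarith [mul_le_mul_of_nonneg_left hl3 (by positivity : (0 : ℝ) ≤ l ^ 3)]
  · refine hCl.trans ?_
    have h3 : max C' 0 / a * (a * l) = max C' 0 * l := by field_simp
    rw [h3]
    exact mul_le_mul_of_nonneg_right (le_max_left _ _) (by linarith)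
  · intro p hp hpD hpe hpC
    refine hP2 p hp hpD ?_ hpC
    have h3 : (c + (1 / (4 * a) - c)) * (a * l) = l / 4 := by
      field_simp
      ring
    rwa [h3] at hpe

theorem main (hOD : OneDimU) : SumsU := by
  intro Q K ε ρ C' hε hρ hρ1
  have hG0 : 0 ≤ Q.G := Q.G0.le
  have hE0 : 0 ≤ (1 + Q.lam + Q.lam ^ 2 + (Q.lam + 2 * Q.lam ^ 2)) := by
    have := Q.hlam
    positivity
  have hGG : 0 ≤ Q.G * Q.G + Q.G * Q.G := by positivity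
  have hr : Q.c * ρ < 1 / 4 := by nlinarith [Q.hc1, Q.hc]
  have hr48 : 1 * (ρ / 48) < 1 / 4 := by linarith
  have h480 : 0 < ρ / 48 := by linarith
  have hj : 1 * (1 / 4 - 2 * ρ) < 1 / 4 := by linarith
  have hj0 : 0 < 1 / 4 - 2 * ρ := by linarith
  have bh1 : ∀ p : ℕ, p.Prime → |h1 p - 1 / p| ≤ 4 * (((0 : ℕ) : ℝ) + 2) / (p : ℝ) ^ 2 :=
    fun p hp => by rw [h1_eq]; exact hb_bound 0 p hp
  filter_upwards [
    useU hOD _ 1 2 _ one_pos LB_f0 h1 bh1 ε hε _ h480 hr48 C',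
    useU hOD _ Q.c _ _ Q.hc ((LB_gg Q).mul (LB_gg Q) hG0 hG0) h1 bh1 ε hε _ hρ hr C',
    useU hOD _ 1 1 _ one_pos LB_one h1 bh1 ε hε _ h480 hr48 C',
    useU hOD _ Q.c _ _ Q.hc (LB_gg Q) h0 h0_bound ε hε _ hρ hr C',
    useU hOD _ 1 2 _ one_pos LB_f0 (hb K) (hb_bound K) ε hε _ h480 hr48 C',
    useU hOD _ Q.c _ _ Q.hc ((LB_gg Q).mul (LB_gg Q) hG0 hG0) (hb K) (hb_bound K) ε hε _ hρ hr C',
    useU hOD _ Q.c _ _ Q.hc (((LB_gg Q).mul (LB_gg Q) hG0 hG0).mul (LB_ee Q) hGG hE0) (hb K)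
      (hb_bound K) ε hε _ hρ hr C',
    useU hOD _ Q.c _ _ Q.hc (LB_gg Q) h1 bh1 ε hε _ hρ hr C',
    useU hOD _ 1 2 _ one_pos LB_f0 h5 Sum_h5_bound ε hε _ h480 hr48 C',
    useU hOD _ Q.c _ _ Q.hc ((LB_gg Q).mul (LB_gg Q) hG0 hG0) h5 Sum_h5_bound ε hε _ hρ hr C',
    useU hOD _ 1 1 _ one_pos LB_one h5 Sum_h5_bound ε hε _ hj0 hj C',
    useU hOD _ 1 1 _ one_pos LB_one h0 h0_bound ε hε _ hj0 hj C'] with
    l a1 b1 c1 d1 e1 f1 g1 a3 c3 d3 e3 f3 D' Cl P hD hCl hP1 hP2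
  have a2 := abs_le.1 (a1 D' Cl P hD hCl hP1 hP2)
  have b2 := abs_le.1 (b1 D' Cl P hD hCl hP1 hP2)
  have c2 := abs_le.1 (c1 D' Cl P hD hCl hP1 hP2)
  have d2 := abs_le.1 (d1 D' Cl P hD hCl hP1 hP2)
  have e2 := abs_le.1 (e1 D' Cl P hD hCl hP1 hP2)
  have f2 := abs_le.1 (f1 D' Cl P hD hCl hP1 hP2)
  have g2 := abs_le.1 (g1 D' Cl P hD hCl hP1 hP2)
  have a4 := abs_le.1 (a3 D' Cl P hD hCl hP1 hP2)
  have c4 := abs_le.1 (c3 D' Cl P hD hCl hP1 hP2)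
  have d4 := abs_le.1 (d3 D' Cl P hD hCl hP1 hP2)
  have e4 := abs_le.1 (e3 D' Cl P hD hCl hP1 hP2)
  have f4 := abs_le.1 (f3 D' Cl P hD hCl hP1 hP2)
  have hL : ρ / 48 * l = ρ * l / 48 := by ring
  rw [hL] at a2 c2 e2 c4
  rw [int_f0] at a2 e2 c4
  have hI2 : (∫ t in (0 : ℝ)..Q.c, Q.gg t * Q.gg t) = Q.I2 := by
    unfold SPar.I2
    congr 1
    funext t
    ring
  have hIE : (∫ t in (0 : ℝ)..Q.c, Q.gg t * Q.gg t * Q.ee t) = Q.IE := by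
    unfold SPar.IE
    congr 1
    funext t
    ring
  have hsq : (fun t => Q.gg t ^ 2) = fun t => Q.gg t * Q.gg t := by funext t; ring
  have hsq' : (fun t => Q.gg t ^ 2 * Q.ee t) = fun t => Q.gg t * Q.gg t * Q.ee t := by
    funext t; ring
  rw [hI2] at b2 f2 d4
  rw [hIE] at g2
  have hint1 : (∫ t in (0 : ℝ)..1, (1 : ℝ)) = 1 := by simp
  rw [hint1] at c2 e4 f4
  have hI1 : (∫ t in (0 : ℝ)..Q.c, Q.gg t) = Q.I1 := rfl
  rw [hI1] at d2 a4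
  refine ⟨?_, ?_⟩
  · constructor
    · linarith [a2.2]
    · rw [hsq]; linarith [b2.2]
    · linarith [c2.2]
    · linarith [d2.1]
    · linarith [e2.1]
    · linarith [e2.2]
    · rw [hsq]; linarith [f2.1]
    · rw [hsq']; linarith [g2.2]
  · constructor
    · linarith [a4.2]
    · linarith [d2.2]
    · linarith [c4.2]
    · rw [hsq]; linarith [d4.2]
    · linarith [e4.2]
    · linarith [f4.1]

end Pool.Agent.W976.UN
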