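import Pool.Agent.W854.HW.Stmts

/-!
# HW-FLOW: measurability of the probability of an empty window, and the limit of the moments
-/

set_option autoImplicit false

open MeasureTheory ProbabilityTheory Filter Topology Set
open scoped NNReal ENNReal

namespace Pool.Agent.W976.HWflow

open Pool.Agent.W854.HW

section Meas

variable {Ω : Type} [mΩ : MeasurableSpace Ω] {K : ℝ → ℝ → Kernel (Ω × ℝ) ℝ} {t : ℝ}

lemma meas_window [IsMarkovKernel (K 0 t)] :
    Measurable fun p : ℝ × Ω => K 0 t (p.2, 0) (Icc p.1 (p.1 + 1)) := by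
  set κ : Kernel (ℝ × Ω) ℝ := (K 0 t).comap (fun p : ℝ × Ω => (p.2, (0 : ℝ)))
    (measurable_snd.prodMk measurable_const) with hκ
  have hS : MeasurableSet {p : (ℝ × Ω) × ℝ | p.1.1 ≤ p.2 ∧ p.2 ≤ p.1.1 + 1} := by
    refine MeasurableSet.inter ?_ ?_
    · exact measurableSet_le (measurable_fst.comp measurable_fst) measurable_snd
    · exact measurableSet_le measurable_snd ((measurable_fst.comp measurable_fst).add_const 1)
  have h := Kernel.measurable_kernel_prodMk_left (κ := κ) hS
  exact h

end Meas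

theorem meas : S_MEAS := by
  intro Ω mΩ P hP K t ht hK
  have hM : IsMarkovKernel (K 0 t) := hK.markov 0 t ht
  have h1 : MeasurableSet {p : ℝ × Ω | K 0 t (p.2, 0) (Icc p.1 (p.1 + 1)) = 0} :=
    meas_window (measurableSet_singleton 0)
  exact measurable_measure_prodMk_left h1

theorem flow : S_FLOWN → S_FLOW := by
  intro hN β ν hν Ω mΩ P hP K hK t j₀ j₁ ht hj
  have ht0 : (0 : ℝ) ≤ t := by linarith
  have hM : IsMarkovKernel (K 0 t) := hK.flow.markov 0 t ht0
  set g : ℝ × Ω → ℝ≥0∞ := fun p => K 0 t (p.2, 0) (Icc p.1 (p.1 + 1)) with hg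
  have gm : Measurable g := meas_window
  have g1 : ∀ p, g p ≤ 1 := fun p => prob_le_one
  set μ : Measure ℝ := volume.restrict (Icc j₀ j₁) with hμ
  have hμf : IsFiniteMeasure μ := by
    rw [hμ]
    exact ⟨by rw [Measure.restrict_apply_univ, Real.volume_Icc]; exact ENNReal.ofReal_lt_top⟩
  set S : Set (ℝ × Ω) := {p | g p = 0} with hS
  have hSm : MeasurableSet S := gm (measurableSet_singleton 0)
  have hlim : Tendsto (fun n : ℕ => ∫⁻ p, (1 - g p) ^ n ∂(μ.prod P)) atTop
      (𝓝 (∫⁻ p, S.indicator (fun _ => (1 : ℝ≥0∞)) p ∂(μ.prod P))) := by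
    refine tendsto_lintegral_of_dominated_convergence (fun _ => 1)
      (fun n => (measurable_const.sub gm).pow_const n) ?_ ?_ ?_
    · intro n
      refine Filter.Eventually.of_forall fun p => ?_
      exact pow_le_one₀ bot_le tsub_le_self
    · rw [lintegral_one]
      exact measure_ne_top _ _
    · refine Filter.Eventually.of_forall fun p => ?_
      by_cases hp : g p = 0
      · have : p ∈ S := hp
        rw [Set.indicator_of_mem this]
        simp [hp]
      · have : p ∉ S := hp
        rw [Set.indicator_of_notMem this]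
        refine ENNReal.tendsto_pow_atTop_nhds_zero_of_lt_one ?_
        exact ENNReal.sub_lt_self ENNReal.one_ne_top one_ne_zero hp
  have hmom : ∀ n : ℕ, ∫⁻ p, (1 - g p) ^ n ∂(μ.prod P) =
      ∫⁻ c in Icc j₀ j₁, ∫⁻ ω, (K 0 t (ω, 0) (Icc c (c + 1))ᶜ) ^ n ∂P := by
    intro n
    have hm : Measurable fun p : ℝ × Ω => (1 - g p) ^ n := (measurable_const.sub gm).pow_const n
    rw [lintegral_prod (fun p : ℝ × Ω => (1 - g p) ^ n) hm.aemeasurable]
    refine lintegral_congr fun c => lintegral_congr fun ω => ?_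
    rw [prob_compl_eq_one_sub measurableSet_Icc]
  have hind : ∫⁻ p, S.indicator (fun _ => (1 : ℝ≥0∞)) p ∂(μ.prod P) =
      ∫⁻ c in Icc j₀ j₁, emptyProb P K t c := by
    rw [lintegral_indicator_const hSm, one_mul, Measure.prod_apply hSm]
    rfl
  rw [← hind]
  refine ge_of_tendsto' hlim fun n => ?_
  rw [hmom n]
  exact hN β ν hν Ω mΩ P hP K hK t j₀ j₁ ht hj n

end Pool.Agent.W976.HWflow
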