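import Pool.Agent.W886.PM.Stm0

/-!
# Existential quantifiers in front of problems in `NP`
-/

set_option autoImplicit false

namespace Pool.Agent.W976.PMNPX

open Pool.Agent.NPC Pool.Agent.H620R2.Gauge

theorem task : Pool.Agent.W886.PM.S_NPX := by
  intro A L p c φ hc hφ hL
  obtain ⟨V0, p0, hV0, hx⟩ := hL
  obtain ⟨q, hq⟩ := hφ.sz_le
  -- the parts of the input
  have hu : Poly (fun z : List Bool => unpair z) := poly_unpair.comp Poly.id
  have hww : Poly (fun z : List Bool => unpair (unpair z).1) := poly_unpair.comp (Poly.fst hu)
  have hy : Poly (fun z : List Bool => (unpair z).2) := Poly.snd hu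
  have hw : Poly (fun z : List Bool => (unpair (unpair z).1).1) := Poly.fst hww
  have hw2 : Poly (fun z : List Bool => (unpair (unpair z).1).2) := Poly.snd hww
  have hwy : Poly (fun z : List Bool => pairBits (unpair (unpair z).1).1 (unpair z).2) :=
    H622R2.poly_pairBits hw hy
  have hX : Poly (fun z : List Bool => φ (pairBits (unpair (unpair z).1).1 (unpair z).2)) :=
    hφ.comp hwy
  have hC : Poly (fun z : List Bool => c (pairBits (unpair (unpair z).1).1 (unpair z).2)) :=
    hc.comp hwy
  have hl1 : Poly (fun z : List Bool =>
      decide ((unpair (unpair z).1).1.length ≤ p.eval (unpair z).2.length)) :=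
    Poly.decide_le (Poly.length hw) ((UPoly.length hy).eval p).toPoly
  have hl2 : Poly (fun z : List Bool =>
      decide ((unpair (unpair z).1).2.length ≤
        p0.eval (φ (pairBits (unpair (unpair z).1).1 (unpair z).2)).length)) :=
    Poly.decide_le (Poly.length hw2) ((UPoly.length hX).eval p0).toPoly
  have hcond : Poly (fun z : List Bool =>
      ((decide ((unpair (unpair z).1).1.length ≤ p.eval (unpair z).2.length) &&
        c (pairBits (unpair (unpair z).1).1 (unpair z).2)) &&
        decide ((unpair (unpair z).1).2.length ≤
          p0.eval (φ (pairBits (unpair (unpair z).1).1 (unpair z).2)).length))) :=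
    Poly.and (Poly.and hl1 hC) hl2
  have hV : IsFP A (fun z : List Bool =>
      bif ((decide ((unpair (unpair z).1).1.length ≤ p.eval (unpair z).2.length) &&
        c (pairBits (unpair (unpair z).1).1 (unpair z).2)) &&
        decide ((unpair (unpair z).1).2.length ≤
          p0.eval (φ (pairBits (unpair (unpair z).1).1 (unpair z).2)).length)) then
        V0 (pairBits (unpair (unpair z).1).2 (φ (pairBits (unpair (unpair z).1).1 (unpair z).2)))
      else []) :=
    IsFP.seq (F := fun z : List Bool => z) (G := V0)
      (φ := fun r => pairBits (unpair (unpair r.1).1).2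
        (φ (pairBits (unpair (unpair r.1).1).1 (unpair r.1).2)))
      (ψ := fun r => bif ((decide ((unpair (unpair r.1).1).1.length ≤ p.eval (unpair r.1).2.length) &&
        c (pairBits (unpair (unpair r.1).1).1 (unpair r.1).2)) &&
        decide ((unpair (unpair r.1).1).2.length ≤
          p0.eval (φ (pairBits (unpair (unpair r.1).1).1 (unpair r.1).2)).length)) then r.2.2
        else [])
      (IsFP.of_poly Poly.id) hV0
      (Poly.comp (H622R2.poly_pairBits hw2 hX) (Poly.fst Poly.id))
      (Poly.cond (Poly.comp hcond (Poly.fst Poly.id)) (Poly.snd (Poly.snd Poly.id))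
        (NPC.Poly.const _))
  refine ⟨_, Polynomial.C 2 * p + Polynomial.C 1 + p0.comp (q.comp (Polynomial.C 4 *
    (Polynomial.C 2 * p + Polynomial.C 1 + Polynomial.X) + Polynomial.C 1)), hV, fun y => ?_⟩
  constructor
  · rintro ⟨w, hwl, hcw, hxw⟩
    obtain ⟨w2, hw2l, hV2⟩ := (hx _).1 hxw
    refine ⟨pairBits w w2, ?_, ?_⟩
    · have e1 : (φ (pairBits w y)).length ≤ (q.comp (Polynomial.C 4 *
          (Polynomial.C 2 * p + Polynomial.C 1 + Polynomial.X) + Polynomial.C 1)).eval y.length := by
        have h4 := length_lt_sz (φ (pairBits w y))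
        have h5 := hq (pairBits w y)
        have h6 := sz_listBool_le (pairBits w y)
        have h7 := length_pairBits w y
        refine h4.le.trans (h5.trans ?_)
        rw [Polynomial.eval_comp]
        apply eval_mono
        simp only [Polynomial.eval_add, Polynomial.eval_mul, Polynomial.eval_C,
          Polynomial.eval_X]
        omega
      have e2 := eval_mono p0 e1
      rw [length_pairBits, Polynomial.eval_add, Polynomial.eval_add, Polynomial.eval_mul,
        Polynomial.eval_C, Polynomial.eval_C, Polynomial.eval_comp (p := p0)]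
      omega
    · simp only [unpair_pairBits]
      rw [decide_eq_true hwl, hcw, decide_eq_true hw2l]
      exact hV2
  · rintro ⟨u, _, hVu⟩
    simp only [unpair_pairBits] at hVu
    have hcnd : ((decide ((unpair u).1.length ≤ p.eval y.length) &&
        c (pairBits (unpair u).1 y)) &&
        decide ((unpair u).2.length ≤ p0.eval (φ (pairBits (unpair u).1 y)).length)) = true := by
      by_contra hne
      rw [Bool.not_eq_true] at hne
      rw [hne] at hVu
      exact absurd hVu (by simp)
    rw [hcnd] at hVu
    simp only [Bool.and_eq_true, decide_eq_true_eq] at hcnd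
    exact ⟨(unpair u).1, hcnd.1.1, hcnd.1.2, (hx _).2 ⟨(unpair u).2, hcnd.2, hVu⟩⟩

end Pool.Agent.W976.PMNPX
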