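import Pool.Agent.W894.HT.MLib
import Pool.Agent.W490.HTMem

/-!
# Project HT: membership in `#P` of the number of Hamiltonian paths plus a constant
-/

namespace Pool.Agent.W976.HNMemp

open Pool.Agent.NPC Pool.Agent.NPC.Cnt Pool.Agent.W894.HT
open Pool.Agent.W490.HTMem

/-- certificates: Hamiltonian paths, and `c` further ones -/
def relM (c : ℕ) (A : LL) (w : ℕ × List ℕ) : Bool :=
  tourB A && ((decide (w.1 = 0) && (permB w.2 A && chB A w.2)) ||
    ((decide (0 < w.1) && decide (w.1 < c + 1)) && decide (w.2 = [])))

theorem relM_poly (c : ℕ) : Poly (fun z : LL × (ℕ × List ℕ) => relM c z.1 z.2) := by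
  have a1 : Poly (fun z : LL × (ℕ × List ℕ) => z.1) := Poly.fst Poly.id
  have a2 : Poly (fun z : LL × (ℕ × List ℕ) => z.2.1) := Poly.fst (Poly.snd Poly.id)
  have a3 : Poly (fun z : LL × (ℕ × List ℕ) => z.2.2) := Poly.snd (Poly.snd Poly.id)
  have k0 : Poly (fun _ : LL × (ℕ × List ℕ) => (0 : ℕ)) := Pool.Agent.NPC.Poly.const 0
  have k1 : Poly (fun _ : LL × (ℕ × List ℕ) => (c + 1 : ℕ)) := Pool.Agent.NPC.Poly.const (c + 1)
  have k2 : Poly (fun _ : LL × (ℕ × List ℕ) => ([] : List ℕ)) := Pool.Agent.NPC.Poly.const []
  exact Poly.and (tourB_poly.comp a1) (Poly.or
    (Poly.and (Poly.decide_eq a2 k0) (Poly.and (permB_p a1 a3) (chB_p a1 a3)))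
    (Poly.and (Poly.and (Poly.decide_lt k0 a2) (Poly.decide_lt a2 k1)) (Poly.decide_eq a3 k2)))

open Classical in
theorem relM_card (c : ℕ) (A : LL) :
    Nat.card {w : ℕ × List ℕ // relM c A w = true} = if IsTour A then numHP A + c else 0 := by
  by_cases hA : IsTour A
  · rw [if_pos hA]
    have hP : {l : List ℕ // relP A l = true} ≃
        {l : List ℕ // (permB l A && chB A l) = true} :=
      Equiv.subtypeEquivRight fun l => by
        unfold relP
        rw [(tourB_iff A).2 hA, Bool.true_and]
    have hfin : Finite {l : List ℕ // (permB l A && chB A l) = true} := by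
      refine Set.Finite.to_subtype (Set.Finite.subset
        (s := {l : List ℕ | l.Perm (List.range A.length)}) ?_ ?_)
      · have : {l : List ℕ | l.Perm (List.range A.length)} =
            ↑((List.range A.length).permutations.toFinset) := by
          ext l
          simp [List.mem_permutations]
        rw [this]
        exact Finset.finite_toSet _
      · intro l hl
        have hl' : (permB l A && chB A l) = true := hl
        rw [Bool.and_eq_true] at hl'
        exact (permB_iff l A).1 hl'.1
    have hcard : Nat.card {l : List ℕ // (permB l A && chB A l) = true} = numHP A := by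
      have h1 := relP_card A
      rw [hpT, if_pos hA] at h1
      rw [← h1]
      exact (Nat.card_congr hP).symm
    have e : {w : ℕ × List ℕ // relM c A w = true} ≃
        {l : List ℕ // (permB l A && chB A l) = true} ⊕ Fin c :=
      { toFun := fun w => if h : w.1.1 = 0 then Sum.inl ⟨w.1.2, by
            have h1 := w.2
            unfold relM at h1
            rw [Bool.and_eq_true, Bool.or_eq_true, Bool.and_eq_true (decide _)] at h1
            rcases h1.2 with h2 | h2
            · exact h2.2
            · rw [Bool.and_eq_true, Bool.and_eq_true, decide_eq_true_eq] at h2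
              omega⟩
          else Sum.inr ⟨w.1.1 - 1, by
            have h1 := w.2
            unfold relM at h1
            rw [Bool.and_eq_true, Bool.or_eq_true, Bool.and_eq_true (decide _),
              decide_eq_true_eq] at h1
            rcases h1.2 with h2 | h2
            · exact absurd h2.1 h
            · rw [Bool.and_eq_true, Bool.and_eq_true, decide_eq_true_eq, decide_eq_true_eq] at h2
              omega⟩
        invFun := Sum.elim (fun l => ⟨(0, l.1), by
            have h1 := l.2
            unfold relM
            rw [(tourB_iff A).2 hA, h1]
            simp⟩)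
          (fun i => ⟨(i.1 + 1, []), by
            have h1 := i.2
            unfold relM
            rw [(tourB_iff A).2 hA]
            simp⟩)
        left_inv := by
          rintro ⟨⟨i, l⟩, hw⟩
          by_cases h : i = 0
          · subst h
            simp
          · have h1 := hw
            unfold relM at h1
            rw [Bool.and_eq_true, Bool.or_eq_true, Bool.and_eq_true (decide _),
              decide_eq_true_eq] at h1
            have h2 : l = [] := by
              rcases h1.2 with h2 | h2
              · exact absurd h2.1 h
              · rw [Bool.and_eq_true, decide_eq_true_eq (p := (_ : List ℕ) = [])] at h2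
                exact h2.2
            subst h2
            simp only [h, dite_false, Sum.elim_inr]
            apply Subtype.ext
            simp only [Prod.mk.injEq, and_true]
            omega
        right_inv := by
          rintro (l | i)
          · simp
          · simp }
    rw [Nat.card_congr e, Nat.card_sum, hcard, Nat.card_eq_fintype_card, Fintype.card_fin]
  · rw [if_neg hA, Nat.card_eq_zero]
    left
    refine ⟨fun w => hA ?_⟩
    have h := w.2
    unfold relM at h
    rw [Bool.and_eq_true] at h
    exact (tourB_iff A).1 h.1

open Classical in
/-- **MEMP** -/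
theorem main : S_MEMP := by
  intro c
  have h := sharpP_typed (relM c) (relM_poly c)
    ((Polynomial.X * (Polynomial.C 4 * Polynomial.X + Polynomial.C 2) +
      Polynomial.C 1 : Polynomial ℕ) + Polynomial.C (4 * c + 10)) ?_
  · have e : (fun A : LL => Nat.card {w : ℕ × List ℕ // relM c A w = true}) =
        fun A : LL => if IsTour A then numHP A + c else 0 := funext (relM_card c)
    rw [e] at h
    exact h
  · rintro A ⟨i, l⟩ hc
    unfold relM at hc
    rw [Bool.and_eq_true, Bool.or_eq_true, Bool.and_eq_true (decide _),
      decide_eq_true_eq, Bool.and_eq_true (permB _ _), permB_iff] at hc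
    rw [sz_pair, Polynomial.eval_add, Polynomial.eval_C]
    rcases hc.2 with h2 | h2
    · have h3 := cert_size h2.2.1 (length_lt_sz A).le
      have h4 := sz_nat_le i
      have h5 := Poly.size_le_self i
      have h6 : i = 0 := h2.1
      simp only at h3 h4 h5 ⊢
      omega
    · rw [Bool.and_eq_true, Bool.and_eq_true, decide_eq_true_eq, decide_eq_true_eq,
        decide_eq_true_eq] at h2
      have h4 := sz_nat_le i
      have h5 := Poly.size_le_self i
      have h6 : l = [] := h2.2
      have h7 : sz l ≤ 1 := by
        rw [h6]
        simp
      have h9 : i < c + 1 := h2.1.2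
      omega

end Pool.Agent.W976.HNMemp
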