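import Pool.Agent.W982.CP.GeoB

/-!
Project CP: the diagonal chain.
-/

namespace Pool.Agent.W976.CP

open Pool.Agent.W982.CP

theorem fm_case1 {R Z W B C Q t σ dx dy : ℚ} (hZR : 16 * Z ≤ R) (hZ : 1 ≤ Z)
    (hW : 2 ≤ W) (hB : B = 16 * W) (hC : 1 ≤ C) (hQ : 1 ≤ Q) (ht : 1 ≤ t)
    (hs1 : -t ≤ σ) (hs2 : σ ≤ t) (hdx : R * ((B - 1) * C) - Z ≤ dx)
    (hdy : -(R * W / 2) - Z ≤ dy) : 0 < (32 * t * C + σ) * dy + (8 * t * Q - σ) * dx := by
  have hR : 0 < R := by linarith
  have htC : t * 1 ≤ t * C := mul_le_mul_of_nonneg_left hC (by linarith)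
  have htQ : t * 1 ≤ t * Q := mul_le_mul_of_nonneg_left hQ (by linarith)
  have h1 : 0 ≤ 32 * t * C + σ := by linarith
  have h2 : 32 * t * C + σ ≤ 33 * (t * C) := by linarith
  have h3 : 7 * t ≤ 8 * t * Q - σ := by linarith
  have hRW : 0 < R * W := mul_pos hR (by linarith)
  have h5 : 15 * W ≤ B - 1 := by linarith
  have h6 : (15 * W) * C ≤ (B - 1) * C := mul_le_mul_of_nonneg_right h5 (by linarith)
  have h7 : R * (15 * W * C) ≤ R * ((B - 1) * C) := mul_le_mul_of_nonneg_left h6 hR.le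
  have h8 : 0 ≤ dx := by
    have e1 : 1 * C ≤ W * C := mul_le_mul_of_nonneg_right (by linarith) (by linarith)
    have e2 : R * (1 * 1) ≤ R * (W * C) := mul_le_mul_of_nonneg_left (by linarith) hR.le
    have e3 : R * (15 * W * C) = 15 * (R * (W * C)) := by ring
    linarith
  have h9 : (7 * t) * dx ≤ (8 * t * Q - σ) * dx := mul_le_mul_of_nonneg_right h3 h8
  have h10 : (7 * t) * (R * (15 * W * C) - Z) ≤ (7 * t) * dx :=
    mul_le_mul_of_nonneg_left (by linarith) (by linarith)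
  have h11 : (32 * t * C + σ) * (-(R * W / 2) - Z) ≤ (32 * t * C + σ) * dy :=
    mul_le_mul_of_nonneg_left hdy h1
  have h12 : (32 * t * C + σ) * (R * W / 2 + Z) ≤ 33 * (t * C) * (R * W / 2 + Z) :=
    mul_le_mul_of_nonneg_right h2 (by linarith)
  have htC0 : 0 < t * C := mul_pos (by linarith) (by linarith)
  have h13 : (t * C) * (16 * Z) ≤ (t * C) * (R * W) := by
    refine mul_le_mul_of_nonneg_left ?_ htC0.le
    have : R * 1 ≤ R * W := mul_le_mul_of_nonneg_left (by linarith) hR.le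
    linarith
  have h14 : t * Z ≤ (t * C) * Z := by
    refine mul_le_mul_of_nonneg_right (by linarith) (by linarith)
  have h15 : 0 < (t * C) * (R * W) := mul_pos htC0 hRW
  have e4 : (7 * t) * (R * (15 * W * C) - Z) = 105 * ((t * C) * (R * W)) - 7 * (t * Z) := by ring
  have e5 : 33 * (t * C) * (R * W / 2 + Z) =
      33 / 2 * ((t * C) * (R * W)) + 33 * ((t * C) * Z) := by ring
  have e6 : (t * C) * (16 * Z) = 16 * ((t * C) * Z) := by ring
  have e7 : (32 * t * C + σ) * (-(R * W / 2) - Z) = -((32 * t * C + σ) * (R * W / 2 + Z)) := by ring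
  linarith

theorem fm_case2 {R Z C Q t σ dx dy : ℚ} (hZR : 1024 * Z ≤ R) (hZ : 1 ≤ Z)
    (hC : 1 ≤ C) (hQ : 1 ≤ Q) (ht : 1 ≤ t)
    (hs1 : -t ≤ σ) (hs2 : σ ≤ t) (hdx : -(R * C) ≤ dx)
    (hdy : R * Q / 2 - Z ≤ dy) : 0 < (32 * t * C + σ) * dy + (8 * t * Q - σ) * dx := by
  have hR : 0 < R := by linarith
  have htC : t * 1 ≤ t * C := mul_le_mul_of_nonneg_left hC (by linarith)
  have htQ : t * 1 ≤ t * Q := mul_le_mul_of_nonneg_left hQ (by linarith)
  have h1 : 31 * (t * C) ≤ 32 * t * C + σ := by linarith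
  have h2 : 0 ≤ 8 * t * Q - σ := by linarith
  have h3 : 8 * t * Q - σ ≤ 9 * (t * Q) := by linarith
  have hRQ : R * 1 ≤ R * Q := mul_le_mul_of_nonneg_left hQ hR.le
  have h4 : 0 ≤ dy := by linarith
  have htC0 : 0 < t * C := mul_pos (by linarith) (by linarith)
  have h5 : 31 * (t * C) * dy ≤ (32 * t * C + σ) * dy := mul_le_mul_of_nonneg_right h1 h4
  have h6 : 31 * (t * C) * (R * Q / 2 - Z) ≤ 31 * (t * C) * dy :=
    mul_le_mul_of_nonneg_left hdy (by linarith)
  have h7 : (8 * t * Q - σ) * (-(R * C)) ≤ (8 * t * Q - σ) * dx :=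
    mul_le_mul_of_nonneg_left hdx h2
  have h8 : (8 * t * Q - σ) * (R * C) ≤ 9 * (t * Q) * (R * C) :=
    mul_le_mul_of_nonneg_right h3 (mul_nonneg hR.le (by linarith))
  have h9 : (t * C) * (1024 * Z) ≤ (t * C) * (R * Q) :=
    mul_le_mul_of_nonneg_left (by linarith) htC0.le
  have h10 : 0 < (t * C) * (R * Q) := mul_pos htC0 (by linarith)
  have e1 : 31 * (t * C) * (R * Q / 2 - Z) = 31 / 2 * ((t * C) * (R * Q)) - 31 * ((t * C) * Z) := by
    ring
  have e2 : 9 * (t * Q) * (R * C) = 9 * ((t * C) * (R * Q)) := by ring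
  have e3 : (t * C) * (1024 * Z) = 1024 * ((t * C) * Z) := by ring
  have e4 : (8 * t * Q - σ) * (-(R * C)) = -((8 * t * Q - σ) * (R * C)) := by ring
  linarith

theorem t_FM (hW : S_WEDGE) : S_FM := by
  intro n t T hT b b' hb hb' hc hr hc' hr' i j k m' k' hij hjk hkt hm' hk' hi hj hk hz
  have ht : 0 < t := by omega
  have hn : 0 < n := by omega
  obtain ⟨hA1, hZ1, hAZ, h16, hR1⟩ := ZR hn ht
  have P := pars hn ht
  obtain ⟨cB, cD⟩ := colpow hc
  obtain ⟨cB', cD'⟩ := colpow hc'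
  obtain ⟨q1, q2⟩ := rowpow hr
  obtain ⟨q1', q2'⟩ := rowpow hr'
  have eB := P.eB
  have eA := P.eA
  have W2 := P.W2
  have BD := P.BD
  have t1 := P.t1
  have ox := offX_le hc' hk' hm'
  have oy := offY_le hr' hk' hm'
  have ox0 : (0 : ℚ) ≤ offX n t (col b') m' k' := Nat.cast_nonneg _
  have oy0 : (0 : ℚ) ≤ offY n t (row b') m' k' := Nat.cast_nonneg _
  set A : ℚ := (gA n t : ℚ)
  set Z : ℚ := (gZ n t : ℚ)
  set R : ℚ := (gR n t : ℚ)
  set W : ℚ := (2 : ℚ) ^ n
  set B : ℚ := (gB n : ℚ)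
  set D : ℚ := B ^ n
  set C : ℚ := B ^ (col b + 1) with hC
  set C' : ℚ := B ^ (col b' + 1) with hC'
  set Q : ℚ := (2 : ℚ) ^ row b with hQ
  set Q' : ℚ := (2 : ℚ) ^ row b' with hQ'
  have hxs : xs b' = xs b := by unfold xs; rw [hb']
  have hys : ys b' = ys b := by unfold ys; rw [hb']
  -- the chain
  have hV1 : ∀ l, l < t → (fr b (pt n t b 1 l)).1 = R * C -
      (t * (t - 1) + (l + 1) * (8 * t * (4 * C) + (l + 1) - (t + 1))) := by
    intro l hl
    rw [frx_same rfl hc hl (by norm_num), offX1 hl]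
  have hV2 : ∀ l, l < t → (fr b (pt n t b 1 l)).2 = R * (2 * W - Q) -
      (t * (t - 1) + (t - l) * (8 * t * Q - (l + 1))) := by
    intro l hl
    rw [fry_same rfl hr hl (by norm_num), offY1 hl]
  have hVx : ∀ l, l < t → (fr b (pt n t b 1 l)).1 ≤ R * C := by
    intro l hl
    rw [frx_same rfl hc hl (by norm_num)]
    have h2 : (0 : ℚ) ≤ offX n t (col b) 1 l := Nat.cast_nonneg _
    linarith
  have hVy : ∀ l, l < t → (fr b (pt n t b 1 l)).2 ≤ R * (2 * W - Q) := by
    intro l hl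
    rw [fry_same rfl hr hl (by norm_num)]
    have h2 : (0 : ℚ) ≤ offY n t (row b) 1 l := Nat.cast_nonneg _
    linarith
  have core : (∀ (l : ℕ) (σ : ℚ), l < t → -(t : ℚ) ≤ σ → σ ≤ t →
      0 < (32 * t * C + σ) * ((fr b (pt n t b' m' k')).2 - (fr b (pt n t b 1 l)).2) +
        (8 * t * Q - σ) * ((fr b (pt n t b' m' k')).1 - (fr b (pt n t b 1 l)).1)) → False := by
    intro hpos
    have hor : ∀ l l', l < l' → l' < t →
        orient (fr b (pt n t b 1 l)) (fr b (pt n t b 1 l')) (fr b (pt n t b' m' k')) < 0 := by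
      intro l l' hll hl'
      have hl : l < t := by omega
      have hla : (l : ℚ) + 1 ≤ t := by exact_mod_cast hl
      have hla' : (l' : ℚ) + 1 ≤ t := by exact_mod_cast hl'
      have hl0 : (0 : ℚ) ≤ l := Nat.cast_nonneg _
      have hl0' : (0 : ℚ) ≤ l' := Nat.cast_nonneg _
      have h1 := hpos l (l + l' + 1 - t) hl (by linarith) (by linarith)
      have h2 : orient (fr b (pt n t b 1 l)) (fr b (pt n t b 1 l')) (fr b (pt n t b' m' k')) =
          -((l' - l) * ((32 * t * C + (l + l' + 1 - t)) *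
            ((fr b (pt n t b' m' k')).2 - (fr b (pt n t b 1 l)).2) +
        (8 * t * Q - (l + l' + 1 - t)) *
          ((fr b (pt n t b' m' k')).1 - (fr b (pt n t b 1 l)).1))) := by
        unfold orient
        rw [hV1 l hl, hV1 l' hl', hV2 l hl, hV2 l' hl']
        ring
      rw [h2]
      have h3 : (0 : ℚ) < l' - l := by
        have : (l : ℚ) < l' := by exact_mod_cast hll
        linarith
      have h4 := mul_pos h3 h1
      linarith
    refine wedge_fr hW hT b hi hj hk hz ?_ (hor i j hij (by omega)) (hor j k hjk hkt)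
    have h2 : orient (fr b (pt n t b 1 i)) (fr b (pt n t b 1 j)) (fr b (pt n t b 1 k)) =
        (j - i) * (k - i) * (k - j) * (8 * t * (4 * C + Q)) := by
      unfold orient
      rw [hV1 i (by omega), hV1 j (by omega), hV1 k hkt, hV2 i (by omega), hV2 j (by omega),
        hV2 k hkt]
      ring
    rw [h2]
    have h3 : (i : ℚ) < j := by exact_mod_cast hij
    have h4 : (j : ℚ) < k := by exact_mod_cast hjk
    have h5 : (0 : ℚ) < j - i := by linarith
    have h6 : (0 : ℚ) < k - i := by linarith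
    have h7 : (0 : ℚ) < k - j := by linarith
    have h8 : (0 : ℚ) < 4 * C + Q := by linarith
    positivity
  have hzy : (fr b (pt n t b' m' k')).2 = R * (2 * W - Q') - offY n t (row b') m' k' :=
    fry_same hys hr' hk' hm'
  have hzx : (fr b (pt n t b' m' k')).1 = R * C' - offX n t (col b') m' k' :=
    frx_same hxs hc' hk' hm'
  refine ⟨?_, ?_⟩
  · by_contra hcon
    push Not at hcon
    have hCC := colpow_lt (n := n) hcon
    apply core
    intro l σ hl hs hs'
    have hdx : R * ((B - 1) * C) - Z ≤ (fr b (pt n t b' m' k')).1 - (fr b (pt n t b 1 l)).1 := by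
      have h1 := hVx l hl
      have h2 : R * (B * C) ≤ R * C' := mul_le_mul_of_nonneg_left hCC (by linarith)
      rw [hzx]
      linarith
    have hdy : -(R * W / 2) - Z ≤ (fr b (pt n t b' m' k')).2 - (fr b (pt n t b 1 l)).2 := by
      have h1 := hVy l hl
      rw [hzy]
      have h2 : R * (2 * Q') ≤ R * W := mul_le_mul_of_nonneg_left q2' (by linarith)
      have h3 : 0 ≤ R * Q := mul_nonneg (by linarith) (by linarith)
      linarith
    exact fm_case1 h16 hZ1 W2 eB (by linarith) q1 t1 hs hs' hdx hdy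
  · by_contra hcon
    push Not at hcon
    have hQQ := rowpow_lt hcon
    apply core
    intro l σ hl hs hs'
    have hdx : -(R * C) ≤ (fr b (pt n t b' m' k')).1 - (fr b (pt n t b 1 l)).1 := by
      have h1 := hVx l hl
      rw [hzx]
      have h2 : R * 1 ≤ R * C' := mul_le_mul_of_nonneg_left (by linarith) (by linarith)
      linarith
    have hdy : R * Q / 2 - Z ≤ (fr b (pt n t b' m' k')).2 - (fr b (pt n t b 1 l)).2 := by
      have h1 := hVy l hl
      rw [hzy]
      have h2 : R * (2 * Q') ≤ R * Q := mul_le_mul_of_nonneg_left hQQ (by linarith)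
      linarith
    have hA64 : 64 ≤ A := by
      rw [eA]
      have h1 : 64 * (1 : ℚ) * 1 ≤ 64 * t * D :=
        mul_le_mul (by linarith) (by linarith) (by norm_num) (by linarith)
      linarith
    have hZR : 1024 * Z ≤ R := by
      have h1 : 64 * Z ≤ A * Z := mul_le_mul_of_nonneg_right hA64 (by linarith)
      have h2 : 16 * A * Z = 16 * (A * Z) := by ring
      linarith
    exact fm_case2 hZR hZ1 (by linarith) q1 t1 hs hs' hdx hdy

end Pool.Agent.W976.CP
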