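import Pool.Agent.W982.CP.GeoB

/-!
Project CP: the vertical chain.
-/

namespace Pool.Agent.W976.CP

open Pool.Agent.W982.CP

theorem fv_case1 {A R W Z B C t s dx dy : ℚ} (hA : 64 * t ≤ A) (hAZ : 16 * (A * Z) = R)
    (hW : 2 ≤ W) (hB : B = 16 * W) (hC : 1 ≤ C) (ht : 1 ≤ t) (hR : 1 ≤ R) (hs0 : 0 ≤ s)
    (hs : s ≤ 2 * t) (hdx : R * ((B - 1) * C) - Z ≤ dx) (hdy : -(4 * (R * W)) ≤ dy) :
    0 < A * dx + s * dy := by
  have hRW : 0 < R * W := mul_pos (by linarith) (by linarith)
  have h1 : -(2 * t * (4 * (R * W))) ≤ s * dy := by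
    have h3 : s * (-(4 * (R * W))) ≤ s * dy := mul_le_mul_of_nonneg_left hdy hs0
    have h4 : s * (4 * (R * W)) ≤ 2 * t * (4 * (R * W)) :=
      mul_le_mul_of_nonneg_right hs (by linarith)
    linarith
  have h2 : A * (R * ((B - 1) * C) - Z) ≤ A * dx := mul_le_mul_of_nonneg_left hdx (by linarith)
  have h5 : 15 * W ≤ (B - 1) * C := by
    have h6 : 15 * W ≤ B - 1 := by linarith
    calc 15 * W ≤ B - 1 := h6
      _ = (B - 1) * 1 := by ring
      _ ≤ (B - 1) * C := mul_le_mul_of_nonneg_left hC (by linarith)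
  have h6 : R * (15 * W) ≤ R * ((B - 1) * C) := mul_le_mul_of_nonneg_left h5 (by linarith)
  have h8 : (64 * t) * (R * (15 * W)) ≤ A * (R * ((B - 1) * C)) :=
    mul_le_mul hA h6 (mul_nonneg (by linarith) (by linarith)) (by linarith)
  have h9 : R * 1 ≤ R * W := mul_le_mul_of_nonneg_left (by linarith) (by linarith)
  have h10 : 1 * (R * W) ≤ t * (R * W) := mul_le_mul_of_nonneg_right ht hRW.le
  have h11 : A * (R * ((B - 1) * C) - Z) = A * (R * ((B - 1) * C)) - A * Z := by ring
  have h13 : (64 * t) * (R * (15 * W)) = 960 * (t * (R * W)) := by ring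
  have h14 : 2 * t * (4 * (R * W)) = 8 * (t * (R * W)) := by ring
  linarith

theorem fv_case2 {A R Z s dx dy : ℚ} (hA : 1 ≤ A) (hZ : 1 ≤ Z) (hAZ : 16 * (A * Z) = R)
    (hs : 1 ≤ s) (hdx : -Z ≤ dx) (hdy : R - Z ≤ dy) : 0 < A * dx + s * dy := by
  have h1 : A * (-Z) ≤ A * dx := mul_le_mul_of_nonneg_left hdx (by linarith)
  have h2 : 1 * Z ≤ A * Z := mul_le_mul_of_nonneg_right hA (by linarith)
  have h3 : 0 ≤ dy := by linarith
  have h4 : 1 * dy ≤ s * dy := mul_le_mul_of_nonneg_right hs h3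
  linarith

/-- `D ≥ 1` gives `64 t ≤ A`. -/
theorem A_ge {A t D : ℚ} (eA : A = 64 * t * D) (t1 : 1 ≤ t) (hD : 1 ≤ D) : 64 * t ≤ A := by
  rw [eA]
  calc 64 * t = 64 * t * 1 := by ring
    _ ≤ 64 * t * D := mul_le_mul_of_nonneg_left hD (by linarith)

theorem t_FV (hW : S_WEDGE) : S_FV := by
  intro n t T hT b b' hb hb' hc hr hc' hr' i j k m' k' hij hjk hkt hm' hk' hi hj hk hz hxs
  have ht : 0 < t := by omega
  have hn : 0 < n := by omega
  obtain ⟨hA1, hZ1, hAZ, h16, hR1⟩ := ZR hn ht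
  have P := pars hn ht
  obtain ⟨cB, cD⟩ := colpow hc
  obtain ⟨cB', cD'⟩ := colpow hc'
  obtain ⟨q1, q2⟩ := rowpow hr
  obtain ⟨q1', q2'⟩ := rowpow hr'
  have eB := P.eB
  have eA := P.eA
  have W2 := P.W2
  have BD := P.BD
  have t1 := P.t1
  have ox := offX_le hc' hk' hm'
  have oy := offY_le hr' hk' hm'
  have ox0 : (0 : ℚ) ≤ offX n t (col b') m' k' := Nat.cast_nonneg _
  have oy0 : (0 : ℚ) ≤ offY n t (row b') m' k' := Nat.cast_nonneg _
  set A : ℚ := (gA n t : ℚ)
  set Z : ℚ := (gZ n t : ℚ)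
  set R : ℚ := (gR n t : ℚ)
  set W : ℚ := (2 : ℚ) ^ n
  set B : ℚ := (gB n : ℚ)
  set D : ℚ := B ^ n
  set C : ℚ := B ^ (col b + 1) with hC
  set C' : ℚ := B ^ (col b' + 1) with hC'
  set Q : ℚ := (2 : ℚ) ^ row b with hQ
  set Q' : ℚ := (2 : ℚ) ^ row b' with hQ'
  -- the chain
  have hV1 : ∀ l, l < t → (fr b (pt n t b 0 l)).1 = R * C - l * (l + 1) := by
    intro l hl
    rw [frx_same rfl hc hl (by norm_num), offX0]
  have hV2 : ∀ l, l < t → (fr b (pt n t b 0 l)).2 = R * (2 * W - Q) -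
      ((t - 1 - l) * A + t * (t - 1) + Q * (8 * t * (t + 1))) := by
    intro l hl
    rw [fry_same rfl hr hl (by norm_num), offY0 hl]
  have hVy : ∀ l, l < t → R * (2 * W - Q) - Z ≤ (fr b (pt n t b 0 l)).2 ∧
      (fr b (pt n t b 0 l)).2 ≤ R * (2 * W - Q) := by
    intro l hl
    rw [fry_same rfl hr hl (by norm_num)]
    have h1 := offY_le hr hl (show 0 < 3 by norm_num)
    have h2 : (0 : ℚ) ≤ offY n t (row b) 0 l := Nat.cast_nonneg _
    constructor <;> linarith
  have core : (∀ l s : ℕ, l < t → 2 ≤ s → s ≤ 2 * t →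
      0 < A * ((fr b (pt n t b' m' k')).1 - (fr b (pt n t b 0 l)).1) +
        s * ((fr b (pt n t b' m' k')).2 - (fr b (pt n t b 0 l)).2)) → False := by
    intro hpos
    have hor : ∀ l l', l < l' → l' < t →
        orient (fr b (pt n t b 0 l)) (fr b (pt n t b 0 l')) (fr b (pt n t b' m' k')) < 0 := by
      intro l l' hll hl'
      have hl : l < t := by omega
      have h1 := hpos l (l + l' + 1) hl (by omega) (by omega)
      have h2 : orient (fr b (pt n t b 0 l)) (fr b (pt n t b 0 l')) (fr b (pt n t b' m' k')) =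
          -((l' - l) * (A * ((fr b (pt n t b' m' k')).1 - (fr b (pt n t b 0 l)).1) +
        (l + l' + 1 : ℕ) * ((fr b (pt n t b' m' k')).2 - (fr b (pt n t b 0 l)).2))) := by
        unfold orient
        rw [hV1 l hl, hV1 l' hl', hV2 l hl, hV2 l' hl']
        push_cast
        ring
      rw [h2]
      have h3 : (0 : ℚ) < l' - l := by
        have : (l : ℚ) < l' := by exact_mod_cast hll
        linarith
      have h4 := mul_pos h3 h1
      linarith
    refine wedge_fr hW hT b hi hj hk hz ?_ (hor i j hij (by omega)) (hor j k hjk hkt)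
    have h2 : orient (fr b (pt n t b 0 i)) (fr b (pt n t b 0 j)) (fr b (pt n t b 0 k)) =
        (j - i) * (k - i) * (k - j) * A := by
      unfold orient
      rw [hV1 i (by omega), hV1 j (by omega), hV1 k hkt, hV2 i (by omega), hV2 j (by omega),
        hV2 k hkt]
      ring
    rw [h2]
    have h3 : (i : ℚ) < j := by exact_mod_cast hij
    have h4 : (j : ℚ) < k := by exact_mod_cast hjk
    have h5 : (0 : ℚ) < j - i := by linarith
    have h6 : (0 : ℚ) < k - i := by linarith
    have h7 : (0 : ℚ) < k - j := by linarith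
    positivity
  have hzx : (fr b (pt n t b' m' k')).1 = R * C' - offX n t (col b') m' k' :=
    frx_same hxs hc' hk' hm'
  have hV1le : ∀ l, l < t → (fr b (pt n t b 0 l)).1 ≤ R * C := by
    intro l hl
    rw [hV1 l hl]
    have : (0 : ℚ) ≤ l * (l + 1) := by positivity
    linarith
  refine ⟨?_, ?_⟩
  · by_contra hcon
    push Not at hcon
    have hCC := colpow_lt (n := n) hcon
    apply core
    intro l s hl hs hs'
    have hdx : R * ((B - 1) * C) - Z ≤ (fr b (pt n t b' m' k')).1 - (fr b (pt n t b 0 l)).1 := by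
      have h1 := hV1le l hl
      have h2 : R * (B * C) ≤ R * C' := mul_le_mul_of_nonneg_left hCC (by linarith)
      rw [hzx]
      linarith
    have hRQ : 0 ≤ R * Q' := mul_nonneg (by linarith) (by linarith)
    have hRW : R * 2 ≤ R * W := mul_le_mul_of_nonneg_left W2 (by linarith)
    have hRQ2 : R * (2 * Q') ≤ R * W := mul_le_mul_of_nonneg_left q2' (by linarith)
    have hRQ3 : 0 ≤ R * Q := mul_nonneg (by linarith) (by linarith)
    have hzy : -(2 * (R * W)) ≤ (fr b (pt n t b' m' k')).2 := by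
      by_cases hys : ys b' = ys b
      · rw [fry_same hys hr' hk' hm']
        linarith
      · rw [fry_diff hys hr' hk' hm']
        linarith
    have hdy : -(4 * (R * W)) ≤ (fr b (pt n t b' m' k')).2 - (fr b (pt n t b 0 l)).2 := by
      have := (hVy l hl).2
      linarith
    have hsQ : (2 : ℚ) ≤ s := by exact_mod_cast hs
    have hsQ' : (s : ℚ) ≤ 2 * t := by exact_mod_cast hs'
    exact fv_case1 (A_ge eA t1 (by linarith)) (by rw [← hAZ]; ring) W2 eB (by linarith) t1 hR1
      (by linarith) hsQ' hdx hdy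
  · intro hcc hys
    by_contra hcon
    push Not at hcon
    have hQQ := rowpow_lt hcon
    apply core
    intro l s hl hs hs'
    have hCC : C' = C := by rw [hC, hC', hcc]
    have hdx : -Z ≤ (fr b (pt n t b' m' k')).1 - (fr b (pt n t b 0 l)).1 := by
      have h1 := hV1le l hl
      rw [hzx, hCC]
      linarith
    have hdy : R - Z ≤ (fr b (pt n t b' m' k')).2 - (fr b (pt n t b 0 l)).2 := by
      have h1 := (hVy l hl).2
      rw [fry_same hys hr' hk' hm']
      have h2 : 1 ≤ Q - Q' := by linarith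
      have h3 : R * 1 ≤ R * (Q - Q') := mul_le_mul_of_nonneg_left h2 (by linarith)
      linarith
    have hsQ : (2 : ℚ) ≤ s := by exact_mod_cast hs
    exact fv_case2 hA1 hZ1 (by rw [← hAZ]; ring) (by linarith) hdx hdy

end Pool.Agent.W976.CP
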